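import Mathlib

/-! The algebraic part: the transfer operator of the generating tree and the symmetry of the
total generating function in `x` and `y`. -/

namespace Pool.Agent.H48.Fish

open Finset

section General

variable {A : Type*} [CommRing A]

/-- The transfer operator. -/
def M (x y : A) (φ : ℕ → ℕ → A) (j r : ℕ) : A :=
  ∑ c ∈ range (r + 1), φ (j + c) (r - c) + (x - 1) * ∑ c ∈ range (r + 1), φ c (r - c)
    + ∑ i ∈ range j, φ (i + 1) (r + (j - 1 - i) + 1) + (y - 1) * ∑ i ∈ range j, φ (i + 1) (j - 1 - i)

theorem M_add (x y : A) (φ ψ : ℕ → ℕ → A) :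
    M x y (φ + ψ) = M x y φ + M x y ψ := by
  funext j r
  simp only [M, Pi.add_apply, Finset.sum_add_distrib]
  ring

theorem M_smul (x y : A) (a : A) (φ : ℕ → ℕ → A) :
    M x y (a • φ) = a • M x y φ := by
  funext j r
  simp only [M, Pi.smul_apply, smul_eq_mul, ← Finset.mul_sum]
  ring

/-- The functional `∑_{n < N} t ^ n (M ^ n φ) (1, 0)`. -/
def E (t x y : A) : ℕ → (ℕ → ℕ → A) → A
  | 0, _ => 0
  | N + 1, φ => φ 1 0 + t * E t x y N (M x y φ)

theorem E_add (t x y : A) (N : ℕ) (φ ψ : ℕ → ℕ → A) :
    E t x y N (φ + ψ) = E t x y N φ + E t x y N ψ := by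
  induction N generalizing φ ψ with
  | zero => simp [E]
  | succ N ih =>
    simp only [E, M_add, ih, Pi.add_apply]
    ring

theorem E_smul (t x y : A) (N : ℕ) (a : A) (φ : ℕ → ℕ → A) :
    E t x y N (a • φ) = a * E t x y N φ := by
  induction N generalizing φ with
  | zero => simp [E]
  | succ N ih =>
    simp only [E, M_smul, ih, Pi.smul_apply, smul_eq_mul]
    ring

/-- telescoping -/
theorem E_tele (t x y : A) (N : ℕ) (φ : ℕ → ℕ → A) :
    ∃ c : A, E t x y N φ - t * E t x y N (M x y φ) = φ 1 0 - t ^ N * c := by
  induction N generalizing φ with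
  | zero => exact ⟨φ 1 0, by simp [E]⟩
  | succ N ih =>
    obtain ⟨c, hc⟩ := ih (M x y φ)
    refine ⟨c, ?_⟩
    simp only [E]
    linear_combination t * hc

/-- the exponential functions -/
def ex (a b : A) (j r : ℕ) : A := a ^ j * b ^ r

theorem M_ex (x y a b : A) :
    (a - b) • M x y (ex a b) =
      a • ex a a + (-(a * b)) • ex b b + (b * (a - 1)) • ex a b + ((x - 1) * a) • ex 1 a
        + (-((x - 1) * b)) • ex 1 b + ((y - 1) * a) • ex a 1 + (-((y - 1) * a)) • ex b 1 := by
  funext j r
  simp only [M, ex, Pi.smul_apply, Pi.add_apply, smul_eq_mul, one_pow, one_mul, mul_one]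
  have h1 : (∑ c ∈ range (r + 1), a ^ (j + c) * b ^ (r - c)) * (a - b)
      = a ^ j * (a ^ (r + 1) - b ^ (r + 1)) := by
    rw [← geom_sum₂_mul, ← mul_assoc, Finset.mul_sum]
    congr 1
    refine Finset.sum_congr rfl fun c _ => ?_
    rw [Nat.add_sub_cancel, pow_add]
    ring
  have h2 : (∑ c ∈ range (r + 1), a ^ c * b ^ (r - c)) * (a - b)
      = a ^ (r + 1) - b ^ (r + 1) := by
    rw [← geom_sum₂_mul]
    simp
  have h4 : (∑ i ∈ range j, a ^ (i + 1) * b ^ (j - 1 - i)) * (a - b) = a * (a ^ j - b ^ j) := by
    rw [← geom_sum₂_mul, ← mul_assoc, Finset.mul_sum]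
    congr 1
    refine Finset.sum_congr rfl fun c _ => ?_
    rw [pow_succ]
    ring
  have h3 : (∑ i ∈ range j, a ^ (i + 1) * b ^ (r + (j - 1 - i) + 1)) =
      b ^ (r + 1) * ∑ i ∈ range j, a ^ (i + 1) * b ^ (j - 1 - i) := by
    rw [Finset.mul_sum]
    refine Finset.sum_congr rfl fun c _ => ?_
    rw [show r + (j - 1 - c) + 1 = (r + 1) + (j - 1 - c) by ring, pow_add]
    ring
  rw [h3]
  linear_combination h1 + (x - 1) * h2 + (b ^ (r + 1) + (y - 1)) * h4

/-- The basic relation, for `t` with `t ^ N = 0`. -/
theorem rel (t x y : A) (N : ℕ) (ht : t ^ N = 0) (a b : A) :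
    (a - b) * E t x y N (ex a b) - t * (a * E t x y N (ex a a) - a * b * E t x y N (ex b b)
      + b * (a - 1) * E t x y N (ex a b)
      + (x - 1) * (a * E t x y N (ex 1 a) - b * E t x y N (ex 1 b))
      + (y - 1) * a * (E t x y N (ex a 1) - E t x y N (ex b 1))) = (a - b) * a := by
  obtain ⟨c, hc⟩ := E_tele t x y N (ex a b)
  have h := congrArg (E t x y N) (M_ex x y a b)
  simp only [E_add, E_smul] at h
  rw [ht] at hc
  have h0 : ex a b 1 0 = a := by simp [ex]
  rw [h0] at hc
  linear_combination (a - b) * hc + t * h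

theorem M_hom {A' : Type*} [CommRing A'] (f : A →+* A') (x y : A) (φ : ℕ → ℕ → A) :
    (fun j r => f (M x y φ j r)) = M (f x) (f y) (fun j r => f (φ j r)) := by
  funext j r
  simp [M, map_sum]

theorem E_hom {A' : Type*} [CommRing A'] (f : A →+* A') (t x y : A) (N : ℕ) (φ : ℕ → ℕ → A) :
    f (E t x y N φ) = E (f t) (f x) (f y) N (fun j r => f (φ j r)) := by
  induction N generalizing φ with
  | zero => simp [E]
  | succ N ih =>
    simp only [E, map_add, map_mul, ih, M_hom]

end General

section Solve

open PowerSeries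

variable {B : Type*} [CommRing B]

/-- `1 / (1 + X)` -/
noncomputable def al : PowerSeries B := PowerSeries.mk fun m => (-1) ^ m

theorem al_mul : (1 + X) * (al : PowerSeries B) = 1 := by
  ext n
  rcases n with _ | n
  · simp [al, add_mul]
  · rw [add_mul, one_mul, map_add, coeff_succ_X_mul]
    simp [al, coeff_one, pow_succ]

theorem X_cancel (f : PowerSeries B) (h : X * f = 0) : f = 0 := by
  ext n
  have := congrArg (coeff (n + 1)) h
  rwa [coeff_succ_X_mul, map_zero] at this

theorem one_sub_al : (1 : PowerSeries B) - al = X * al := by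
  linear_combination (-1 : PowerSeries B) * al_mul (B := B)

theorem cancel (f : PowerSeries B) (h : (1 - al) * f = 0) : f = 0 := by
  rw [one_sub_al] at h
  apply X_cancel
  linear_combination (1 + X) * h - X * f * al_mul (B := B)

/-- The functional equation. -/
theorem star (t x y : B) (N : ℕ) (ht : t ^ N = 0) :
    let q : PowerSeries B := 1 - C t
    let be : PowerSeries B := rescale (1 - t) al
    let T := E (C t) (C x) (C y) N (ex (1 : PowerSeries B) 1)
    let la := E (C t) (C x) (C y) N (ex 1 (al : PowerSeries B))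
    let lb := E (C t) (C x) (C y) N (ex 1 be)
    q * la = (1 - C t * C x) * (1 - C t * C y) * be * lb + q * (1 - al)
      + C t * T * (C x + C y - 1 - C t * C x * C y) := by
  intro q be T la lb
  have htA : (C t : PowerSeries B) ^ N = 0 := by rw [← map_pow, ht, map_zero]
  have hbe : (1 + q * X) * be = 1 := by
    have := congrArg (rescale (1 - t)) (al_mul (B := B))
    rw [map_mul, map_add, map_one, rescale_X] at this
    simpa [q, be] using this
  have hal : (1 + X) * (al : PowerSeries B) = 1 := al_mul
  -- the kernel relation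
  have hker : al - be - C t * be * (al - 1) = 0 := by
    have e1 : al - be = -(C t) * X * al * be := by
      linear_combination (-al) * hbe + be * hal
    linear_combination e1 + C t * be * one_sub_al (B := B)
  have hab : al * (1 - be) = q * be * (1 - al) := by
    have : (1 : PowerSeries B) - be = q * X * be := by linear_combination (-1 : PowerSeries B) * hbe
    rw [this, one_sub_al]
    ring
  have r1 := rel (C t) (C x) (C y) N htA 1 al
  have r2 := rel (C t) (C x) (C y) N htA 1 be
  have r3 := rel (C t) (C x) (C y) N htA al 1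
  have r4 := rel (C t) (C x) (C y) N htA al be
  set ea := E (C t) (C x) (C y) N (ex al 1) with hea
  set eb := E (C t) (C x) (C y) N (ex be 1) with heb
  set eaa := E (C t) (C x) (C y) N (ex al al) with heaa
  set ebb := E (C t) (C x) (C y) N (ex be be) with hebb
  set eab := E (C t) (C x) (C y) N (ex al be) with heab
  -- first relation
  have f1 : la - ea * (1 - C t * C y) - C t * C y * T - (1 - al) = 0 := by
    apply cancel
    linear_combination r1 + r3
  have f2 : la + C t * (C y - 1) * ea - (1 - C t * C x) * be * lb - (1 - al)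
      - C t * T * (C x + C y - 1) = 0 := by
    apply cancel
    linear_combination r1 - al * r2 + r4 - eab * hker + lb * hab
  linear_combination (1 - C t * C y) * f2 + C t * (C y - 1) * f1

theorem coeff_zero_al_pow (r : ℕ) : constantCoeff ((al : PowerSeries B) ^ r) = 1 := by
  rw [map_pow]
  simp [al]

theorem coeff_zero_la (t x y : B) (N : ℕ) :
    constantCoeff (E (C t) (C x) (C y) N (ex 1 (al : PowerSeries B))) = E t x y N (ex 1 1) := by
  rw [E_hom]
  simp only [constantCoeff_C]
  congr 1
  funext j r
  simp [ex, coeff_zero_al_pow]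

theorem T_eq (t x y : B) (N : ℕ) :
    E (C t) (C x) (C y) N (ex (1 : PowerSeries B) 1) = C (E t x y N (ex 1 1)) := by
  rw [E_hom]
  congr 1
  funext j r
  simp [ex]

theorem lb_eq (t x y : B) (N : ℕ) :
    E (C t) (C x) (C y) N (ex 1 (rescale (1 - t) (al : PowerSeries B)))
      = rescale (1 - t) (E (C t) (C x) (C y) N (ex 1 (al : PowerSeries B))) := by
  have hC : ∀ a : B, rescale (1 - t) (C a) = C a := fun a => by
    ext n
    rw [coeff_rescale, coeff_C]
    split_ifs with h
    · simp [h]
    · simp
  rw [E_hom]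
  simp only [hC]
  congr 1
  funext j r
  simp [ex]

theorem key (t x y : B) (N : ℕ) (ht : t ^ N = 0) (D : PowerSeries B)
    (h : C (1 - t) * (1 + C (1 - t) * X) * D = C ((1 - t * x) * (1 - t * y)) * rescale (1 - t) D
      + C (t * (x + y - 1 - t * x * y)) * (1 + C (1 - t) * X) * C (constantCoeff D)) :
    constantCoeff D = 0 := by
  have hq : IsUnit (1 - t) := IsNilpotent.isUnit_one_sub ⟨N, ht⟩
  have hlam : IsUnit ((1 - t * x) * (1 - t * y)) := by
    apply IsUnit.mul
    · exact IsNilpotent.isUnit_one_sub ⟨N, by rw [mul_pow, ht, zero_mul]⟩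
    · exact IsNilpotent.isUnit_one_sub ⟨N, by rw [mul_pow, ht, zero_mul]⟩
  have hsucc : ∀ m : ℕ, (1 - t) * (coeff (m + 1) D + (1 - t) * coeff m D) =
      (1 - t * x) * (1 - t * y) * (1 - t) ^ (m + 1) * coeff (m + 1) D +
      (if m = 0 then t * (x + y - 1 - t * x * y) * (1 - t) * constantCoeff D else 0) := by
    intro m
    have e : C (t * (x + y - 1 - t * x * y)) * (1 + C (1 - t) * X) * C (constantCoeff D)
        = C (t * (x + y - 1 - t * x * y) * constantCoeff D)
          + C (t * (x + y - 1 - t * x * y) * (1 - t) * constantCoeff D) * X := by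
      simp only [map_mul]
      ring
    have := congrArg (coeff (m + 1)) h
    rw [e, mul_assoc (C (1 - t)), add_mul, one_mul, coeff_C_mul, map_add, mul_assoc, coeff_C_mul,
      coeff_succ_X_mul, map_add, coeff_C_mul, coeff_rescale, map_add, coeff_C, coeff_C_mul,
      coeff_X] at this
    rw [this]
    rcases m with _ | m
    · simp
      ring
    · simp
      ring
  have hdiv : ∀ a : ℕ, ∀ m, t ^ a ∣ coeff m D := by
    intro a
    induction a with
    | zero => intro m; simp
    | succ a ih =>
      have hcan : ∀ u z : B, IsUnit u → t ^ (a + 1) ∣ u * z → t ^ (a + 1) ∣ z := by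
        intro u z hu hz
        exact (hu.dvd_mul_left).1 hz
      have hpos : ∀ m, t ^ (a + 1) ∣ coeff (m + 1) D := by
        intro m
        have e := hsucc (m + 1)
        rw [if_neg (Nat.succ_ne_zero m), add_zero] at e
        have hl : t ∣ 1 - (1 - t * x) * (1 - t * y) * (1 - t) ^ (m + 1) := by
          have h1 : t ∣ 1 - (1 - t) ^ (m + 1) := by
            have := sub_dvd_pow_sub_pow (1 : B) (1 - t) (m + 1)
            simpa using this
          obtain ⟨c, hc⟩ := h1
          refine ⟨c + (x + y - t * x * y) * (1 - t) ^ (m + 1), ?_⟩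
          linear_combination hc
        apply hcan ((1 - t) * (1 - t)) _ (hq.mul hq)
        have e2 : (1 - t) * (1 - t) * coeff (m + 1) D =
            -((1 - t) * ((1 - (1 - t * x) * (1 - t * y) * (1 - t) ^ (m + 1))
              * coeff (m + 1 + 1) D)) := by
          linear_combination e
        rw [e2, dvd_neg]
        apply Dvd.dvd.mul_left
        rw [pow_succ, mul_comm]
        exact mul_dvd_mul hl (ih _)
      intro m
      rcases m with _ | m
      · have e := hsucc 0
        rw [if_pos rfl] at e
        simp only [zero_add, pow_one] at e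
        rw [coeff_zero_eq_constantCoeff_apply] at e ⊢
        apply hcan ((1 - t) * ((1 - t * x) * (1 - t * y))) _ (hq.mul hlam)
        have e2 : (1 - t) * ((1 - t * x) * (1 - t * y)) * constantCoeff D =
            -((1 - t) * ((t * (x + y - t * x * y)) * coeff 1 D)) := by
          linear_combination e
        rw [e2, dvd_neg]
        apply Dvd.dvd.mul_left
        rw [pow_succ, mul_comm]
        refine mul_dvd_mul ⟨_, rfl⟩ (ih _)
      · exact hpos m
  have := hdiv N 0
  rw [ht, zero_dvd_iff, coeff_zero_eq_constantCoeff_apply] at this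
  exact this

/-- The total generating function is symmetric in `x` and `y`. -/
theorem E_symm (t x y : B) (N : ℕ) (ht : t ^ N = 0) :
    E t x y N (ex 1 1) = E t y x N (ex 1 1) := by
  have h1 := star t x y N ht
  have h2 := star t y x N ht
  simp only [T_eq, lb_eq] at h1 h2
  set L1 := E (C t) (C x) (C y) N (ex 1 (al : PowerSeries B)) with hL1
  set L2 := E (C t) (C y) (C x) N (ex 1 (al : PowerSeries B)) with hL2
  have c1 : constantCoeff L1 = E t x y N (ex 1 1) := coeff_zero_la t x y N
  have c2 : constantCoeff L2 = E t y x N (ex 1 1) := coeff_zero_la t y x N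
  have hbe : (1 + (1 - C t) * X) * rescale (1 - t) (al : PowerSeries B) = 1 := by
    have := congrArg (rescale (1 - t)) (al_mul (B := B))
    rw [map_mul, map_add, map_one, rescale_X] at this
    simpa using this
  have := key t x y N ht (L1 - L2) (by
    rw [map_sub constantCoeff, c1, c2]
    simp only [map_sub, map_mul, map_one, map_add]
    linear_combination (1 + (1 - C t) * X) * (h1 - h2)
      + (1 - C t * C x) * (1 - C t * C y) * (rescale (1 - t) L1 - rescale (1 - t) L2) * hbe)
  rw [map_sub, c1, c2, sub_eq_zero] at this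
  exact this

end Solve

end Pool.Agent.H48.Fish
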