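import Pool.Agent.H48.Fish.Lists

/-! Assembling the pieces: from lists to permutations, and comparison of coefficients. -/

namespace Pool.Agent.H48.Fish

open Finset

variable {R : Type*} [CommRing R]

theorem E_Phi {B : Type*} [CommRing B] (f : R →+* B) (t : B) (x y : R) (N k : ℕ) :
    E t (f x) (f y) N (fun j r => f (Phi x y k j r)) =
      ∑ m ∈ range N, t ^ m * f (Phi x y (k + m) 1 0) := by
  induction N generalizing k with
  | zero => simp [E]
  | succ N ih =>
    rw [E, ← M_hom]
    have h1 : (fun j r => f (M x y (fun j r => Phi x y k j r) j r)) =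
      fun j r => f (Phi x y (k + 1) j r) := rfl
    rw [h1, ih, Finset.sum_range_succ', Finset.mul_sum, add_comm]
    congr 1
    · refine Finset.sum_congr rfl fun m _ => ?_
      rw [show k + 1 + m = k + (m + 1) by ring, pow_succ]
      ring
    · simp

open Polynomial in
theorem Phi_symm (x y : R) (n : ℕ) : Phi x y n 1 0 = Phi y x n 1 0 := by
  let I : Ideal R[X] := Ideal.span {X ^ (n + 1)}
  let f : R →+* R[X] ⧸ I := (Ideal.Quotient.mk I).comp C
  let t : R[X] ⧸ I := Ideal.Quotient.mk I X
  have ht : t ^ (n + 1) = 0 := by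
    rw [← map_pow, Ideal.Quotient.eq_zero_iff_mem]
    exact Ideal.subset_span rfl
  have h := E_symm t (f x) (f y) (n + 1) ht
  have e1 : (ex 1 1 : ℕ → ℕ → R[X] ⧸ I) = fun j r => f (Phi x y 0 j r) := by
    funext j r; simp [Phi, ex]
  have e2 : (ex 1 1 : ℕ → ℕ → R[X] ⧸ I) = fun j r => f (Phi y x 0 j r) := by
    funext j r; simp [Phi, ex]
  have h1 : E t (f x) (f y) (n + 1) (ex 1 1) =
      ∑ m ∈ range (n + 1), t ^ m * f (Phi x y (0 + m) 1 0) := by
    rw [e1]; exact E_Phi f t x y (n + 1) 0
  have h2 : E t (f y) (f x) (n + 1) (ex 1 1) =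
      ∑ m ∈ range (n + 1), t ^ m * f (Phi y x (0 + m) 1 0) := by
    rw [e2]; exact E_Phi f t y x (n + 1) 0
  rw [h1, h2, ← sub_eq_zero, ← Finset.sum_sub_distrib] at h
  have h3 : Ideal.Quotient.mk I
      (∑ m ∈ range (n + 1), (X ^ m * C (Phi x y (0 + m) 1 0) - X ^ m * C (Phi y x (0 + m) 1 0)))
      = 0 := by
    rw [← h, map_sum]
    rfl
  rw [Ideal.Quotient.eq_zero_iff_mem, Ideal.mem_span_singleton, X_pow_dvd_iff] at h3
  have h4 := h3 n (Nat.lt_succ_self n)
  simp only [finsetSum_coeff, coeff_sub, coeff_X_pow_mul', coeff_C, zero_add] at h4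
  rw [Finset.sum_eq_single n] at h4
  · simpa [sub_eq_zero] using h4
  · intro m hm hmn
    have := Finset.mem_range.1 hm
    rw [if_pos (by omega), if_neg (by omega), if_pos (by omega), if_neg (by omega), sub_zero]
  · intro hn
    simp at hn

theorem rc_app (n : ℕ) (a b : List ℕ) (ha : ∀ u ∈ a, u < n) (hb : ∀ u ∈ b, u < n) :
    rc (a ++ n :: b) = rc b + 1 := by
  induction a with
  | nil => rw [List.nil_append, rc, if_pos hb]
  | cons v a ih =>
    rw [List.cons_append, rc, ih (fun u hu => ha u (List.mem_cons_of_mem _ hu)), if_neg, add_zero]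
    intro h
    have h1 := h n (by simp)
    have h2 := ha v (by simp)
    omega

theorem rc_ofFn (n : ℕ) (f : Fin n → ℕ) :
    rc (List.ofFn f) = (univ.filter fun i => ∀ m, i < m → f m < f i).card := by
  induction n with
  | zero => simp [rc]
  | succ n ih =>
    rw [List.ofFn_succ, rc, ih, Fin.card_filter_univ_succ']
    rw [add_comm]
    congr 1
    · congr 1
      simp only [List.mem_ofFn, forall_exists_index, forall_apply_eq_imp_iff, eq_iff_iff]
      constructor
      · intro h m hm
        cases m using Fin.cases with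
        | zero => exact absurd hm (lt_irrefl _)
        | succ m => exact h m
      · intro h m
        exact h _ (Fin.succ_pos m)
    · congr 1
      ext i
      simp only [mem_filter, mem_univ, true_and]
      constructor
      · intro h m hm
        cases m using Fin.cases with
        | zero => exact absurd hm (by simp)
        | succ m => exact h m (by simpa using hm)
      · intro h m hm
        exact h _ (by simpa using hm)

theorem ofFn_rev (n : ℕ) (f : Fin n → ℕ) :
    (List.ofFn f).reverse = List.ofFn fun i => f i.rev := by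
  apply List.ext_getElem
  · simp
  · intro i h1 h2
    rw [List.getElem_reverse, List.getElem_ofFn, List.getElem_ofFn]
    congr 1
    ext
    simp [Fin.val_rev]
    omega

theorem rc_ofFn_rev (n : ℕ) (f : Fin n → ℕ) :
    rc (List.ofFn f).reverse = (univ.filter fun i => ∀ m, m < i → f m < f i).card := by
  rw [ofFn_rev, rc_ofFn]
  apply Finset.card_bij (fun i _ => i.rev)
  · intro i hi
    simp only [mem_filter, mem_univ, true_and] at hi ⊢
    intro m hm
    have := hi m.rev (by rw [Fin.lt_rev_iff]; exact hm)
    simpa using this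
  · intro a _ b _ h
    exact Fin.rev_injective h
  · intro b hb
    simp only [mem_filter, mem_univ, true_and] at hb
    refine ⟨b.rev, ?_, by simp⟩
    simp only [mem_filter, mem_univ, true_and]
    intro m hm
    simpa using hb m.rev (by rw [Fin.rev_lt_iff]; exact hm)

/-- the avoidance condition for functions on `Fin n` -/
def Av {n : ℕ} (f : Fin n → ℕ) : Prop :=
  ¬ ∃ i j k : Fin n, (i : ℕ) + 1 = j ∧ j < k ∧ f i + 1 = f k ∧ f k < f j

theorem V_ofFn (n : ℕ) (f : Fin n → ℕ) : V (List.ofFn f) ↔ Av f := by
  induction n with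
  | zero =>
    simp only [List.ofFn_zero, V, Av, true_iff]
    rintro ⟨i, -⟩
    exact i.elim0
  | succ n ih =>
    cases n with
    | zero =>
      simp only [List.ofFn_succ, List.ofFn_zero, V, Av, true_iff]
      rintro ⟨i, j, k, h1, h2, -⟩
      omega
    | succ n =>
      rw [List.ofFn_succ, List.ofFn_succ, V_cc]
      have e : (f (Fin.succ 0) :: List.ofFn fun i : Fin n => f (Fin.succ (Fin.succ i))) =
        List.ofFn (fun i : Fin (n + 1) => f i.succ) := by rw [List.ofFn_succ]
      rw [e, ih, Av, Av, ← not_or, not_iff_not]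
      constructor
      · rintro (⟨h1, h2⟩ | ⟨i, j, k, h1, h2, h3, h4⟩)
        · rw [List.mem_ofFn] at h1
          obtain ⟨k, hk⟩ := h1
          refine ⟨0, Fin.succ 0, k.succ.succ, by simp, ?_, hk.symm, ?_⟩
          · rw [Fin.succ_lt_succ_iff]
            exact Fin.succ_pos k
          · rw [hk]; exact h2
        · refine ⟨i.succ, j.succ, k.succ, ?_, ?_, h3, h4⟩
          · simp [h1]
          · rwa [Fin.succ_lt_succ_iff]
      · rintro ⟨i, j, k, h1, h2, h3, h4⟩
        cases j using Fin.cases with
        | zero => simp at h1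
        | succ j =>
        cases k using Fin.cases with
        | zero => exact absurd h2 (by simp)
        | succ k =>
        rw [Fin.succ_lt_succ_iff] at h2
        cases i using Fin.cases with
        | zero =>
          left
          have hj : j = 0 := by
            ext
            simpa using h1.symm
          subst hj
          cases k using Fin.cases with
          | zero => exact absurd h2 (lt_irrefl _)
          | succ k =>
            rw [List.mem_ofFn]
            exact ⟨⟨k, h3.symm⟩, by rw [h3]; exact h4⟩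
        | succ i =>
          right
          refine ⟨i, j, k, ?_, h2, h3, h4⟩
          simpa using h1

/-- the list of a permutation -/
def toL {n : ℕ} (p : Equiv.Perm (Fin n)) : List ℕ := List.ofFn fun i => (p i : ℕ)

theorem toL_inj {n : ℕ} {p q : Equiv.Perm (Fin n)} (h : toL p = toL q) : p = q := by
  have := List.ofFn_injective h
  ext i
  exact congrFun this i

theorem toL_perm {n : ℕ} (p : Equiv.Perm (Fin n)) : (toL p).Perm (List.range n) := by
  rw [List.perm_ext_iff_of_nodup]
  · intro a
    rw [toL, List.mem_ofFn, List.mem_range]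
    constructor
    · rintro ⟨i, rfl⟩
      exact (p i).2
    · intro h
      exact ⟨p.symm ⟨a, h⟩, by simp⟩
  · rw [toL, List.nodup_ofFn]
    intro i j h
    exact p.injective (Fin.ext h)
  · exact List.nodup_range

theorem toL_surj {n : ℕ} (l : List ℕ) (h : l.Perm (List.range n)) :
    ∃ p : Equiv.Perm (Fin n), toL p = l := by
  have hlen : l.length = n := by simpa using h.length_eq
  have hnd : l.Nodup := h.nodup_iff.2 List.nodup_range
  have hlt : ∀ (i : ℕ) (hi : i < l.length), l[i] < n := fun i hi =>
    List.mem_range.1 (h.subset (List.getElem_mem hi))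
  let g : Fin n → Fin n := fun i => ⟨l[(i : ℕ)]'(by rw [hlen]; exact i.2), hlt _ _⟩
  have hg : Function.Injective g := by
    intro i j hij
    have h1 : l[(i : ℕ)]'(by rw [hlen]; exact i.2) = l[(j : ℕ)]'(by rw [hlen]; exact j.2) :=
      congrArg Fin.val hij
    exact Fin.ext ((hnd.getElem_inj_iff).1 h1)
  refine ⟨Equiv.ofBijective g (Finite.injective_iff_bijective.1 hg), ?_⟩
  apply List.ext_getElem
  · simp [toL, hlen]
  · intro i h1 h2
    simp [toL, g]

/-- left-to-right maxima -/
def lr {n : ℕ} (p : Equiv.Perm (Fin n)) : ℕ :=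
  (univ.filter fun i => ∀ m, m < i → p m < p i).card

/-- right-to-left maxima -/
def rl {n : ℕ} (p : Equiv.Perm (Fin n)) : ℕ :=
  (univ.filter fun i => ∀ m, i < m → p m < p i).card

open Classical in
theorem sum_perm (x y : R) (n : ℕ) :
    ∑ p ∈ (univ : Finset (Equiv.Perm (Fin (n + 1)))).filter (fun p => Av fun i => (p i : ℕ)),
      x ^ lr p * y ^ rl p = x * y * Phi x y n 1 0 := by
  rw [← sum_Zl, ← List.sum_map_mul_left, ← List.sum_toFinset _ (Zl_nodup n)]
  have hex : ∀ z ∈ (Zl n).toFinset, ∃ p : Equiv.Perm (Fin (n + 1)),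
      toL p = z.1.reverse ++ n :: z.2 := by
    intro z hz
    rw [List.mem_toFinset, mem_Zl] at hz
    exact toL_surj _ hz.1
  choose F hF using hex
  symm
  apply Finset.sum_bij F
  · intro z hz
    have hz' := hz
    rw [List.mem_toFinset, mem_Zl] at hz'
    rw [mem_filter]
    refine ⟨mem_univ _, ?_⟩
    rw [← V_ofFn]
    have : V (toL (F z hz)) := by rw [hF]; exact hz'.2
    exact this
  · intro z hz w hw h
    have h1 := hF z hz
    rw [h, hF w hw] at h1
    rw [List.mem_toFinset, mem_Zl] at hz
    exact Ok.inj hz h1.symm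
  · intro p hp
    rw [mem_filter] at hp
    have hn : n ∈ toL p := (toL_perm p).symm.subset (by simp)
    obtain ⟨a, b, hab⟩ := List.append_of_mem hn
    have hz : (a.reverse, b) ∈ (Zl n).toFinset := by
      rw [List.mem_toFinset, mem_Zl]
      constructor
      · simp only [List.reverse_reverse]
        rw [← hab]
        exact toL_perm p
      · simp only [List.reverse_reverse]
        rw [← hab]
        exact (V_ofFn _ _).2 hp.2
    refine ⟨_, hz, ?_⟩
    apply toL_inj
    rw [hF, hab]
    simp
  · intro z hz
    have hz' := hz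
    rw [List.mem_toFinset, mem_Zl] at hz'
    have hnd := hz'.nodup
    have hlt : ∀ u, u ∈ z.1 ∨ u ∈ z.2 → u < n := by
      intro u hu
      have h1 : u ∈ List.range (n + 1) := hz'.1.subset (by simp; tauto)
      have h2 : u ≠ n := by
        rintro rfl
        have h3 := (List.perm_middle.nodup_iff).1 hnd
        rw [List.nodup_cons] at h3
        apply h3.1
        simp
        tauto
      have := List.mem_range.1 h1
      omega
    have e1 : rl (F z hz) = rc z.2 + 1 := by
      have h1 : rl (F z hz) = rc (toL (F z hz)) := by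
        rw [toL, rc_ofFn]
        rfl
      rw [h1, hF, rc_app]
      · intro u hu
        exact hlt u (Or.inl (by simpa using hu))
      · intro u hu
        exact hlt u (Or.inr hu)
    have e2 : lr (F z hz) = rc z.1 + 1 := by
      have h1 : lr (F z hz) = rc (toL (F z hz)).reverse := by
        rw [toL, rc_ofFn_rev]
        rfl
      rw [h1, hF, List.reverse_append, List.reverse_cons, List.reverse_reverse,
        List.append_assoc, List.singleton_append, rc_app]
      · intro u hu
        exact hlt u (Or.inr (by simpa using hu))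
      · intro u hu
        exact hlt u (Or.inl hu)
    rw [e1, e2]
    ring

open Classical Polynomial in
theorem main (n : ℕ) (a b : ℕ) :
    ((univ : Finset (Equiv.Perm (Fin (n + 1)))).filter
      (fun p => (Av fun i => (p i : ℕ)) ∧ lr p = a ∧ rl p = b)).card =
    ((univ : Finset (Equiv.Perm (Fin (n + 1)))).filter
      (fun p => (Av fun i => (p i : ℕ)) ∧ lr p = b ∧ rl p = a)).card := by
  have key : ∀ (g h : Equiv.Perm (Fin (n + 1)) → ℕ),
      coeff (coeff (∑ p ∈ (univ : Finset (Equiv.Perm (Fin (n + 1)))).filter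
        (fun p => Av fun i => (p i : ℕ)), (C (X : ℤ[X])) ^ g p * (X : ℤ[X][X]) ^ h p) b) a =
      (((univ : Finset (Equiv.Perm (Fin (n + 1)))).filter
        (fun p => (Av fun i => (p i : ℕ)) ∧ g p = a ∧ h p = b)).card : ℤ) := by
    intro g h
    rw [finsetSum_coeff, finsetSum_coeff, Finset.card_filter, Finset.sum_filter]
    push_cast
    refine Finset.sum_congr rfl fun p _ => ?_
    rw [← map_pow, coeff_C_mul, coeff_X_pow]
    by_cases h1 : Av fun i => (p i : ℕ)
    · rw [if_pos h1]
      by_cases h2 : h p = b
      · rw [if_pos h2.symm, mul_one, coeff_X_pow]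
        by_cases h3 : g p = a
        · rw [if_pos h3.symm, if_pos ⟨h1, h3, h2⟩]
        · rw [if_neg (fun h => h3 h.symm), if_neg (fun h => h3 h.2.1)]
      · rw [if_neg (fun h => h2 h.symm), mul_zero, coeff_zero, if_neg (fun h => h2 h.2.2)]
    · rw [if_neg h1, if_neg (fun h => h1 h.1)]
  have e1 := sum_perm (C (X : ℤ[X])) (X : ℤ[X][X]) n
  have e2 := sum_perm (X : ℤ[X][X]) (C (X : ℤ[X])) n
  have e3 : ∑ p ∈ (univ : Finset (Equiv.Perm (Fin (n + 1)))).filter
      (fun p => Av fun i => (p i : ℕ)), (C (X : ℤ[X])) ^ lr p * (X : ℤ[X][X]) ^ rl p =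
      ∑ p ∈ (univ : Finset (Equiv.Perm (Fin (n + 1)))).filter
      (fun p => Av fun i => (p i : ℕ)), (C (X : ℤ[X])) ^ rl p * (X : ℤ[X][X]) ^ lr p := by
    rw [e1, Phi_symm, mul_comm (C (X : ℤ[X])) (X : ℤ[X][X]), ← e2]
    exact Finset.sum_congr rfl fun p _ => mul_comm _ _
  have h1 := key lr rl
  have h2 := key rl lr
  rw [e3, h2] at h1
  have h3 := Nat.cast_injective (R := ℤ) h1
  rw [← h3]
  congr 1
  ext p
  simp only [mem_filter, mem_univ, true_and]
  tauto

end Pool.Agent.H48.Fish
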