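import Pool.Agent.H48.Fish.Words

/-! Permutations as lists, split at their maximum, and the generating tree. -/

namespace Pool.Agent.H48.Fish

open Finset

/-- number of entries larger than all later entries -/
def rc : List ℕ → ℕ
  | [] => 0
  | v :: l => rc l + if ∀ u ∈ l, u < v then 1 else 0

/-- the avoidance condition for lists -/
def V : List ℕ → Prop
  | [] => True
  | [_] => True
  | u :: v :: b => ¬ (u + 1 ∈ b ∧ u + 1 < v) ∧ V (v :: b)

/-- the word of the reversed part to the left of the maximum -/
def wl : List ℕ → List Bool
  | [] => [true]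
  | v :: ρ => (if ∀ u ∈ ρ, u < v then [false] else if v + 1 ∈ ρ then [true] else []) ++ wl ρ

/-- the word of the part to the right of the maximum -/
def wr : List ℕ → List Bool
  | [] => []
  | v :: β => (if ∀ u ∈ β, u < v then [true] else if v + 1 ∉ β then [false] else []) ++ wr β

/-- active splits -/
def act : List ℕ → List ℕ → Bool
  | [], _ => true
  | u :: _, β => decide (u + 1 ∉ β)

def upA : List ℕ → List ℕ → List (List ℕ × List ℕ)
  | [], r => [([], r)]
  | v :: ρ, r => (v :: ρ, r) :: upA ρ (v :: r)

def upC : List ℕ → List ℕ → List (List ℕ × List ℕ)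
  | l, [] => [(l, [])]
  | l, v :: β => (l, v :: β) :: upC (v :: l) β

def children (n : ℕ) (z : List ℕ × List ℕ) : List (List ℕ × List ℕ) :=
  (upA z.1 (n :: z.2) ++ upC (n :: z.1) z.2).filter fun p => act p.1 p.2

/-- all the permutations in the class with maximum `n`, split at the maximum -/
def Zl : ℕ → List (List ℕ × List ℕ)
  | 0 => [([], [])]
  | n + 1 => (Zl n).flatMap (children n)

theorem count_wl (ρ : List ℕ) : (wl ρ).count false = rc ρ := by
  induction ρ with
  | nil => simp [wl, rc]
  | cons v ρ ih =>
    rw [wl, rc, List.count_append, ih, add_comm]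
    congr 1
    split_ifs <;> simp

theorem count_wr (β : List ℕ) : (wr β).count true = rc β := by
  induction β with
  | nil => simp [wr, rc]
  | cons v ρ ih =>
    rw [wr, rc, List.count_append, ih, add_comm]
    congr 1
    split_ifs <;> simp

variable {R : Type*} [CommRing R]

theorem lemA (F : List Bool → List Bool → R) (n : ℕ) (ρ r : List ℕ)
    (hp : (ρ ++ r).Perm (List.range (n + 1))) (hn : n ∈ r) :
    (((upA ρ r).filter fun p => act p.1 p.2).map fun p => F (wl p.1) (wr p.2)).sum =
      sumA F (wl ρ) (wr r) := by
  induction ρ generalizing r with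
  | nil => simp [upA, act, wl, sumA]
  | cons v ρ ih =>
    have hp' : (ρ ++ v :: r).Perm (List.range (n + 1)) := List.perm_middle.trans hp
    have ih' := ih (v :: r) hp' (List.mem_cons_of_mem _ hn)
    have hnd : (v :: ρ ++ r).Nodup := hp.nodup_iff.2 List.nodup_range
    have hv : v < n := by
      have h1 : v ∈ List.range (n + 1) := hp.subset (by simp)
      have h2 : v ≠ n := by
        rintro rfl
        simp only [List.cons_append, List.nodup_cons, List.mem_append, not_or] at hnd
        exact hnd.1.2 hn
      have := List.mem_range.1 h1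
      omega
    have hmem : v + 1 ∈ ρ ∨ v + 1 ∈ r := by
      have h1 : v + 1 ∈ v :: ρ ++ r := hp.symm.subset (List.mem_range.2 (by omega))
      simpa using h1
    have hex : v + 1 ∈ ρ → v + 1 ∉ r := by
      intro h1 h2
      rw [List.cons_append, List.nodup_cons, List.nodup_append'] at hnd
      exact hnd.2.2.2 h1 h2
    have hnot : ¬ ∀ u ∈ r, u < v := fun h => by
      have := h n hn
      omega
    rw [upA]
    by_cases h1 : v + 1 ∈ ρ
    · have h2 := hex h1
      have h3 : ¬ ∀ u ∈ ρ, u < v := fun h => by
        have := h _ h1
        omega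
      have e1 : wl (v :: ρ) = true :: wl ρ := by rw [wl, if_neg h3, if_pos h1]; rfl
      have e2 : wr (v :: r) = false :: wr r := by rw [wr, if_neg hnot, if_pos h2]; rfl
      rw [List.filter_cons_of_pos (by simpa [act] using h2), List.map_cons, List.sum_cons, ih', e1,
        e2, sumA]
    · have h2 : v + 1 ∈ r := hmem.resolve_left h1
      have e2 : wr (v :: r) = wr r := by
        rw [wr, if_neg hnot, if_neg (by simpa using h2)]; rfl
      rw [List.filter_cons_of_neg (by simpa [act] using h2), ih', e2]
      by_cases h3 : ∀ u ∈ ρ, u < v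
      · have e1 : wl (v :: ρ) = false :: wl ρ := by rw [wl, if_pos h3]; rfl
        rw [e1, sumA]
      · have e1 : wl (v :: ρ) = wl ρ := by rw [wl, if_neg h3, if_neg h1]; rfl
        rw [e1]

theorem lemC (F : List Bool → List Bool → R) (n : ℕ) (l β : List ℕ)
    (hp : (l ++ β).Perm (List.range (n + 1))) (hn : n ∈ l) :
    (((upC l β).tail.filter fun p => act p.1 p.2).map fun p => F (wl p.1) (wr p.2)).sum =
      sumC F (wl l) (wr β) := by
  induction β generalizing l with
  | nil => simp [upC, wr, sumC]
  | cons v β ih =>
    have hp' : (v :: l ++ β).Perm (List.range (n + 1)) := List.perm_middle.symm.trans hp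
    have ih' := ih (v :: l) hp' (List.mem_cons_of_mem _ hn)
    have hnd : (v :: l ++ β).Nodup := hp'.nodup_iff.2 List.nodup_range
    have hv : v < n := by
      have h1 : v ∈ List.range (n + 1) := hp.subset (by simp)
      have h2 : v ≠ n := by
        rintro rfl
        simp only [List.cons_append, List.nodup_cons, List.mem_append, not_or] at hnd
        exact hnd.1.1 hn
      have := List.mem_range.1 h1
      omega
    have hmem : v + 1 ∈ l ∨ v + 1 ∈ β := by
      have h1 : v + 1 ∈ v :: l ++ β := hp'.symm.subset (List.mem_range.2 (by omega))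
      simpa using h1
    have hex : v + 1 ∈ l → v + 1 ∉ β := by
      intro h1 h2
      rw [List.cons_append, List.nodup_cons, List.nodup_append'] at hnd
      exact hnd.2.2.2 h1 h2
    have hnot : ¬ ∀ u ∈ l, u < v := fun h => by
      have := h n hn
      omega
    have hup : ∀ k : List ℕ, upC k β = (k, β) :: (upC k β).tail := by
      intro k
      cases β <;> simp [upC]
    rw [upC, List.tail_cons, hup]
    by_cases h1 : v + 1 ∈ β
    · have h2 : v + 1 ∉ l := fun h => hex h h1
      rw [List.filter_cons_of_neg (by simpa [act] using h1), ih']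
      have h3 : ¬ ∀ u ∈ β, u < v := fun h => by
        have := h _ h1
        omega
      have e1 : wl (v :: l) = wl l := by rw [wl, if_neg hnot, if_neg h2]; rfl
      have e2 : wr (v :: β) = wr β := by
        rw [wr, if_neg h3, if_neg (by simpa using h1)]; rfl
      rw [e1, e2]
    · have h2 : v + 1 ∈ l := hmem.resolve_right h1
      have e1 : wl (v :: l) = true :: wl l := by rw [wl, if_neg hnot, if_pos h2]; rfl
      rw [List.filter_cons_of_pos (by simpa [act] using h1), List.map_cons, List.sum_cons, ih', e1]
      by_cases h3 : ∀ u ∈ β, u < v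
      · have e2 : wr (v :: β) = true :: wr β := by rw [wr, if_pos h3]; rfl
        rw [e2, sumC]
      · have e2 : wr (v :: β) = false :: wr β := by rw [wr, if_neg h3, if_pos h1]; rfl
        rw [e2, sumC]

theorem upC_eq (l β : List ℕ) : upC l β = (l, β) :: (upC l β).tail := by
  cases β <;> simp [upC]

theorem sum_children (x y : R) (s n : ℕ) (z : List ℕ × List ℕ)
    (hp : (z.1 ++ n :: z.2).Perm (List.range (n + 1))) :
    ((children n z).map fun p => G x y s (wl p.1) (wr p.2)).sum =
      G x y (s + 1) (wl z.1) (wr z.2) := by
  obtain ⟨ρ, β⟩ := z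
  simp only at hp ⊢
  have hnd : (ρ ++ n :: β).Nodup := hp.nodup_iff.2 List.nodup_range
  have hp' : (n :: ρ ++ β).Perm (List.range (n + 1)) := List.perm_middle.symm.trans hp
  have hnd' : (n :: ρ ++ β).Nodup := hp'.nodup_iff.2 List.nodup_range
  have hlt : ∀ u, u ∈ ρ ∨ u ∈ β → u < n := by
    intro u hu
    have h1 : u ∈ List.range (n + 1) := hp'.subset (by simp; tauto)
    have h2 : u ≠ n := by
      rintro rfl
      simp only [List.cons_append, List.nodup_cons, List.mem_append] at hnd'
      exact hnd'.1 hu
    have := List.mem_range.1 h1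
    omega
  have hA := lemA (G x y s) n ρ (n :: β) hp (by simp)
  have hC := lemC (G x y s) n (n :: ρ) β hp' (by simp)
  have e1 : wl (n :: ρ) = false :: wl ρ := by
    rw [wl, if_pos (fun u hu => hlt u (Or.inl hu))]; rfl
  have e2 : wr (n :: β) = true :: wr β := by
    rw [wr, if_pos (fun u hu => hlt u (Or.inr hu))]; rfl
  rw [children, List.filter_append, List.map_append, List.sum_append, hA, upC_eq,
    List.filter_cons_of_pos (by
      simp only [act, decide_eq_true_eq]
      intro h
      have := hlt _ (Or.inr h)
      omega), List.map_cons, List.sum_cons, hC, G, e1, e2]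
  ring

theorem mem_upA (ρ r : List ℕ) (p : List ℕ × List ℕ) :
    p ∈ upA ρ r ↔ ∃ τ, ρ = τ ++ p.1 ∧ p.2 = τ.reverse ++ r := by
  induction ρ generalizing r with
  | nil =>
    simp only [upA, List.mem_singleton]
    constructor
    · rintro rfl
      exact ⟨[], by simp, by simp⟩
    · rintro ⟨τ, h1, h2⟩
      obtain ⟨h3, h4⟩ := List.append_eq_nil_iff.1 h1.symm
      rw [h3] at h2
      exact Prod.ext h4 (by simpa using h2)
  | cons v ρ ih =>
    rw [upA, List.mem_cons, ih]
    constructor
    · rintro (rfl | ⟨τ, h1, h2⟩)
      · exact ⟨[], by simp, by simp⟩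
      · exact ⟨v :: τ, by simp [h1], by simp [h2]⟩
    · rintro ⟨τ, h1, h2⟩
      cases τ with
      | nil =>
        left
        exact Prod.ext (by simpa using h1.symm) (by simpa using h2)
      | cons a τ =>
        right
        simp only [List.cons_append, List.cons.injEq] at h1
        obtain ⟨rfl, h1⟩ := h1
        exact ⟨τ, h1, by simp [h2]⟩

theorem mem_upC (l β : List ℕ) (p : List ℕ × List ℕ) :
    p ∈ upC l β ↔ ∃ τ, β = τ ++ p.2 ∧ p.1 = τ.reverse ++ l := by
  induction β generalizing l with
  | nil =>
    simp only [upC, List.mem_singleton]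
    constructor
    · rintro rfl
      exact ⟨[], by simp, by simp⟩
    · rintro ⟨τ, h1, h2⟩
      obtain ⟨h3, h4⟩ := List.append_eq_nil_iff.1 h1.symm
      rw [h3] at h2
      exact Prod.ext (by simpa using h2) h4
  | cons v β ih =>
    rw [upC, List.mem_cons, ih]
    constructor
    · rintro (rfl | ⟨τ, h1, h2⟩)
      · exact ⟨[], by simp, by simp⟩
      · exact ⟨v :: τ, by simp [h1], by simp [h2]⟩
    · rintro ⟨τ, h1, h2⟩
      cases τ with
      | nil =>
        left
        exact Prod.ext (by simpa using h2) (by simpa using h1.symm)
      | cons a τ =>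
        right
        simp only [List.cons_append, List.cons.injEq] at h1
        obtain ⟨rfl, h1⟩ := h1
        exact ⟨τ, h1, by simp [h2]⟩

theorem mem_children (n : ℕ) (z p : List ℕ × List ℕ) :
    p ∈ children n z ↔ p.1.reverse ++ p.2 = z.1.reverse ++ n :: z.2 ∧ act p.1 p.2 = true := by
  rw [children, List.mem_filter, List.mem_append, mem_upA, mem_upC]
  refine and_congr_left fun _ => ?_
  constructor
  · rintro (⟨τ, h1, h2⟩ | ⟨τ, h1, h2⟩)
    · rw [h1, h2]; simp
    · rw [h1, h2]; simp
  · intro h
    rcases List.append_eq_append_iff.1 h with ⟨a, h1, h2⟩ | ⟨c, h1, h2⟩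
    · left
      refine ⟨a.reverse, ?_, ?_⟩
      · have := congrArg List.reverse h1
        simpa using this
      · rw [h2]; simp
    · cases c with
      | nil =>
        left
        simp only [List.append_nil, List.nil_append] at h1 h2
        refine ⟨[], ?_, by simp [h2]⟩
        simpa using (List.reverse_injective h1).symm
      | cons b c =>
        right
        simp only [List.cons_append, List.cons.injEq] at h2
        obtain ⟨rfl, h2⟩ := h2
        refine ⟨c, h2, ?_⟩
        have := congrArg List.reverse h1
        simpa using this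

theorem V_cc (u v : ℕ) (b : List ℕ) :
    V (u :: v :: b) ↔ ¬ (u + 1 ∈ b ∧ u + 1 < v) ∧ V (v :: b) := by rw [V]

theorem V_insert_aux (a : List ℕ) (u N : ℕ) (β : List ℕ) (h : ∀ v ∈ a ++ u :: β, v < N) :
    V (a ++ u :: N :: β) ↔ V (a ++ u :: β) ∧ u + 1 ∉ β := by
  induction a with
  | nil =>
    simp only [List.nil_append] at h ⊢
    have hu : u < N := h u (by simp)
    have hN : V (N :: β) ↔ V β := by
      cases β with
      | nil => simp [V]
      | cons w b =>
        rw [V]
        constructor
        · exact fun h => h.2
        · intro hV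
          refine ⟨?_, hV⟩
          rintro ⟨h1, -⟩
          have := h (N + 1) (by simp [h1])
          omega
    rw [V, hN]
    constructor
    · rintro ⟨h1, h2⟩
      have h3 : u + 1 ∉ β := by
        intro h4
        apply h1
        refine ⟨h4, ?_⟩
        exact h _ (by simp [h4])
      refine ⟨?_, h3⟩
      cases β with
      | nil => simp [V]
      | cons w b =>
        rw [V]
        refine ⟨?_, h2⟩
        rintro ⟨h4, -⟩
        exact h3 (List.mem_cons_of_mem _ h4)
    · rintro ⟨h1, h2⟩
      refine ⟨fun h3 => h2 h3.1, ?_⟩
      cases β with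
      | nil => simp [V]
      | cons w b =>
        rw [V] at h1
        exact h1.2
  | cons c a ih =>
    have ih' := ih (fun v hv => h v (by simp at hv ⊢; tauto))
    cases a with
    | nil =>
      simp only [List.nil_append, List.cons_append] at ih' h ⊢
      rw [V_cc c u (N :: β), V_cc c u β, ih', and_assoc]
      refine and_congr_left fun _ => not_congr (and_congr_left fun h3 => ?_)
      constructor
      · intro h4
        rcases List.mem_cons.1 h4 with h5 | h5
        · have := h u (by simp)
          omega
        · exact h5
      · intro h4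
        exact List.mem_cons_of_mem _ h4
    | cons d a =>
      simp only [List.cons_append] at ih' h ⊢
      rw [V_cc c d (a ++ u :: N :: β), V_cc c d (a ++ u :: β), ih', and_assoc]
      refine and_congr_left fun _ => not_congr (and_congr_left fun h3 => ?_)
      have h6 : c + 1 ≠ N := by
        have := h d (by simp)
        omega
      simp only [List.mem_append, List.mem_cons]
      tauto

theorem V_insert (ρ β : List ℕ) (N : ℕ) (h : ∀ v ∈ ρ ++ β, v < N) :
    V (ρ.reverse ++ N :: β) ↔ V (ρ.reverse ++ β) ∧ act ρ β = true := by
  cases ρ with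
  | nil =>
    simp only [List.reverse_nil, List.nil_append, act, and_true]
    cases β with
    | nil => simp [V]
    | cons w b =>
      rw [V]
      constructor
      · exact fun h => h.2
      · intro hV
        refine ⟨?_, hV⟩
        rintro ⟨h1, -⟩
        have := h (N + 1) (by simp [h1])
        omega
  | cons u ρ =>
    have := V_insert_aux ρ.reverse u N β (fun v hv => h v (by simp at hv ⊢; tauto))
    simp only [List.reverse_cons, List.append_assoc, List.singleton_append, act,
      decide_eq_true_eq]
    simpa using this

/-- the class of permutations with maximum `n`, split at the maximum -/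
def Ok (n : ℕ) (z : List ℕ × List ℕ) : Prop :=
  (z.1.reverse ++ n :: z.2).Perm (List.range (n + 1)) ∧ V (z.1.reverse ++ n :: z.2)

theorem mem_Zl (n : ℕ) (z : List ℕ × List ℕ) : z ∈ Zl n ↔ Ok n z := by
  induction n generalizing z with
  | zero =>
    simp only [Zl, List.mem_singleton, Ok]
    constructor
    · rintro rfl
      simp [V]
    · rintro ⟨h1, -⟩
      have := h1.length_eq
      simp only [List.length_append, List.length_cons, List.length_reverse, List.length_range]
        at this
      have h2 : z.1.length = 0 := by omega
      have h3 : z.2.length = 0 := by omega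
      exact Prod.ext (List.length_eq_zero_iff.1 h2) (List.length_eq_zero_iff.1 h3)
  | succ n ih =>
    have hperm : (z.1.reverse ++ (n + 1) :: z.2).Perm (List.range (n + 1 + 1)) ↔
        (z.1.reverse ++ z.2).Perm (List.range (n + 1)) := by
      rw [List.range_succ (n := n + 1)]
      constructor
      · intro h
        have h1 := List.perm_middle.symm.trans h
        exact (List.perm_cons (n + 1)).1 (h1.trans (List.perm_append_singleton _ _))
      · intro h
        exact List.perm_middle.trans
          (((List.perm_cons (n + 1)).2 h).trans (List.perm_append_singleton _ _).symm)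
    rw [Zl, List.mem_flatMap]
    constructor
    · rintro ⟨w, hw, hz⟩
      rw [ih] at hw
      rw [mem_children] at hz
      have hp : (z.1.reverse ++ z.2).Perm (List.range (n + 1)) := by rw [hz.1]; exact hw.1
      refine ⟨hperm.2 hp, ?_⟩
      rw [V_insert]
      · refine ⟨?_, hz.2⟩
        rw [hz.1]
        exact hw.2
      · intro v hv
        have : v ∈ z.1.reverse ++ z.2 := by simpa using hv
        exact List.mem_range.1 (hp.subset this)
    · rintro ⟨h1, h2⟩
      have hp := hperm.1 h1
      rw [V_insert] at h2
      · have hn : n ∈ z.1.reverse ++ z.2 := hp.symm.subset (List.mem_range.2 (by omega))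
        obtain ⟨a, b, hab⟩ := List.append_of_mem hn
        refine ⟨(a.reverse, b), ?_, ?_⟩
        · rw [ih]
          constructor
          · simp only [List.reverse_reverse]
            rw [← hab]
            exact hp
          · simp only [List.reverse_reverse]
            rw [← hab]
            exact h2.1
        · rw [mem_children]
          simp only [List.reverse_reverse]
          exact ⟨hab, h2.2⟩
      · intro v hv
        have : v ∈ z.1.reverse ++ z.2 := by simpa using hv
        exact List.mem_range.1 (hp.subset this)

theorem Ok.nodup {n : ℕ} {z : List ℕ × List ℕ} (h : Ok n z) :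
    (z.1.reverse ++ n :: z.2).Nodup := h.1.nodup_iff.2 List.nodup_range

theorem Ok.inj {n : ℕ} {z w : List ℕ × List ℕ} (hz : Ok n z)
    (h : z.1.reverse ++ n :: z.2 = w.1.reverse ++ n :: w.2) : z = w := by
  have h1 := hz.nodup
  rw [List.nodup_append', List.nodup_cons] at h1
  have h3 : n ∉ z.1.reverse := fun h => h1.2.2 h (by simp)
  rw [List.append_cons_inj_of_notMem h3 h1.2.1.1] at h
  exact Prod.ext (List.reverse_injective h.1) h.2.2

theorem upA_len (ρ r : List ℕ) (p : List ℕ × List ℕ) (h : p ∈ upA ρ r) :
    p.1.length ≤ ρ.length := by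
  rw [mem_upA] at h
  obtain ⟨τ, h1, -⟩ := h
  rw [h1]
  simp

theorem upC_len (l β : List ℕ) (p : List ℕ × List ℕ) (h : p ∈ upC l β) :
    l.length ≤ p.1.length := by
  rw [mem_upC] at h
  obtain ⟨τ, -, h1⟩ := h
  rw [h1]
  simp

theorem upA_nodup (ρ r : List ℕ) : (upA ρ r).Nodup := by
  induction ρ generalizing r with
  | nil => simp [upA]
  | cons v ρ ih =>
    rw [upA, List.nodup_cons]
    refine ⟨fun h => ?_, ih _⟩
    have := upA_len _ _ _ h
    simp at this

theorem upC_nodup (l β : List ℕ) : (upC l β).Nodup := by
  induction β generalizing l with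
  | nil => simp [upC]
  | cons v β ih =>
    rw [upC, List.nodup_cons]
    refine ⟨fun h => ?_, ih _⟩
    have := upC_len _ _ _ h
    simp at this

theorem children_nodup (n : ℕ) (z : List ℕ × List ℕ) : (children n z).Nodup := by
  rw [children]
  apply List.Nodup.filter
  rw [List.nodup_append']
  refine ⟨upA_nodup _ _, upC_nodup _ _, ?_⟩
  intro p h1 h2
  have h3 := upA_len _ _ _ h1
  have h4 := upC_len _ _ _ h2
  simp only [List.length_cons] at h4
  omega

theorem Zl_nodup (n : ℕ) : (Zl n).Nodup := by
  induction n with
  | zero => simp [Zl]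
  | succ n ih =>
    rw [Zl, List.nodup_flatMap]
    refine ⟨fun z _ => children_nodup n z, ?_⟩
    refine List.Pairwise.imp_of_mem ?_ ih
    intro z w hz hw hne p hp1 hp2
    rw [mem_children] at hp1 hp2
    apply hne
    exact Ok.inj ((mem_Zl n z).1 hz) (hp1.1.symm.trans hp2.1)

theorem sum_flatMap_map {α β : Type*} (l : List α) (f : α → List β) (g : β → R) :
    ((l.flatMap f).map g).sum = (l.map fun a => ((f a).map g).sum).sum := by
  induction l with
  | nil => simp
  | cons a l ih => simp [List.flatMap_cons, ih]

theorem H_step (x y : R) (s n : ℕ) :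
    ((Zl (n + 1)).map fun p => G x y s (wl p.1) (wr p.2)).sum =
      ((Zl n).map fun p => G x y (s + 1) (wl p.1) (wr p.2)).sum := by
  rw [Zl, sum_flatMap_map]
  congr 1
  apply List.map_congr_left
  intro z hz
  apply sum_children
  have := ((mem_Zl n z).1 hz).1
  refine List.Perm.trans ?_ this
  exact (List.Perm.append_right _ (List.reverse_perm _).symm)

theorem H_all (x y : R) (n s : ℕ) :
    ((Zl n).map fun p => G x y s (wl p.1) (wr p.2)).sum = Phi x y (n + s) 1 0 := by
  induction n generalizing s with
  | zero =>
    rw [Zl, List.map_singleton, List.sum_singleton, zero_add]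
    exact G_rep x y s 1 0
  | succ n ih =>
    rw [H_step, ih, show n + 1 + s = n + (s + 1) by ring]

theorem sum_Zl (x y : R) (n : ℕ) :
    ((Zl n).map fun p => x ^ rc p.1 * y ^ rc p.2).sum = Phi x y n 1 0 := by
  have := H_all x y n 0
  simp only [G, count_wl, count_wr] at this
  exact this

end Pool.Agent.H48.Fish
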