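import Pool.Agent.H48.Fish.Alg

/-! The generating tree on pairs of words, and its reduction to the transfer operator `M`. -/

namespace Pool.Agent.H48.Fish

open Finset

variable {R : Type*} [CommRing R]

/-- sum over the insertions to the left of the maximum -/
def sumA (F : List Bool → List Bool → R) : List Bool → List Bool → R
  | [], _ => 0
  | true :: w, v => F (true :: w) v + sumA F w (false :: v)
  | false :: w, v => sumA F w v

/-- sum over the insertions to the right of the maximum (not immediately after it) -/
def sumC (F : List Bool → List Bool → R) : List Bool → List Bool → R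
  | _, [] => 0
  | w, _ :: v => F (true :: w) v + sumC F (true :: w) v

/-- the generating polynomials of the `s`-step descendants -/
def G (x y : R) : ℕ → List Bool → List Bool → R
  | 0, w, v => x ^ (w.count false) * y ^ (v.count true)
  | s + 1, w, v => sumA (G x y s) w (true :: v) + G x y s (false :: w) v
      + sumC (G x y s) (false :: w) v

theorem sumA_app (F : List Bool → List Bool → R) (k : R) (α : List Bool)
    (h : ∀ β v, F (β ++ false :: α) v = F (β ++ α) v + k * F β v) (β v : List Bool) :
    sumA F (β ++ false :: α) v = sumA F (β ++ α) v + k * sumA F β v := by
  induction β generalizing v with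
  | nil => simp [sumA]
  | cons b β ih =>
    cases b with
    | true =>
      simp only [List.cons_append, sumA]
      rw [ih, ← List.cons_append, h, ← List.cons_append]
      ring
    | false =>
      simp only [List.cons_append, sumA]
      rw [ih]

theorem sumC_left (F : List Bool → List Bool → R) (k : R) (α : List Bool)
    (h : ∀ β v, F (β ++ false :: α) v = F (β ++ α) v + k * F β v) (β v : List Bool) :
    sumC F (β ++ false :: α) v = sumC F (β ++ α) v + k * sumC F β v := by
  induction v generalizing β with
  | nil => simp [sumC]
  | cons b v ih =>
    simp only [sumC]
    have h1 := ih (true :: β)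
    have h2 := h (true :: β) v
    simp only [List.cons_append] at h1 h2
    rw [h1, h2]
    ring

theorem R1 (x y : R) (s : ℕ) (α : List Bool) (β v : List Bool) :
    G x y s (β ++ false :: α) v =
      G x y s (β ++ α) v + (x - 1) * x ^ (α.count false) * G x y s β v := by
  induction s generalizing β v with
  | zero =>
    simp only [G, List.count_append, List.count_cons_self]
    ring
  | succ s ih =>
    simp only [G]
    rw [sumA_app _ _ α ih]
    have h1 := ih (false :: β) v
    have h2 := sumC_left _ _ α ih (false :: β) v
    simp only [List.cons_append] at h1 h2
    rw [h1, h2]
    ring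

theorem sumA_right (F : List Bool → List Bool → R) (k : R) (δ : List Bool)
    (h : ∀ w γ, F w (γ ++ true :: δ) = F w (γ ++ false :: δ) + k * F w γ) (w γ : List Bool) :
    sumA F w (γ ++ true :: δ) = sumA F w (γ ++ false :: δ) + k * sumA F w γ := by
  induction w generalizing γ with
  | nil => simp [sumA]
  | cons b w ih =>
    cases b with
    | true =>
      simp only [sumA]
      have h1 := ih (false :: γ)
      simp only [List.cons_append] at h1
      rw [h1, h]
      ring
    | false =>
      simp only [sumA]
      rw [ih]

theorem sumC_right (F : List Bool → List Bool → R) (k : R) (δ : List Bool)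
    (h : ∀ w γ, F w (γ ++ true :: δ) = F w (γ ++ false :: δ) + k * F w γ) (w γ : List Bool) :
    sumC F w (γ ++ true :: δ) = sumC F w (γ ++ false :: δ) + k * sumC F w γ := by
  induction γ generalizing w with
  | nil => simp [sumC]
  | cons b γ ih =>
    simp only [List.cons_append, sumC]
    rw [ih, h]
    ring

theorem R2 (x y : R) (s : ℕ) (δ : List Bool) (w γ : List Bool) :
    G x y s w (γ ++ true :: δ) =
      G x y s w (γ ++ false :: δ) + (y - 1) * y ^ (δ.count true) * G x y s w γ := by
  induction s generalizing w γ with
  | zero =>
    simp only [G, List.count_append, List.count_cons_self]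
    simp
    ring
  | succ s ih =>
    simp only [G]
    have h0 := sumA_right _ _ δ ih w (true :: γ)
    simp only [List.cons_append] at h0
    rw [h0, ih, sumC_right _ _ δ ih]
    ring

/-- `M ^ s` applied to the constant `1` -/
def Phi (x y : R) : ℕ → ℕ → ℕ → R
  | 0 => fun _ _ => 1
  | s + 1 => M x y (Phi x y s)

theorem sumA_rep (F : List Bool → List Bool → R) (j c : ℕ) (v : List Bool) :
    sumA F (List.replicate j true) (List.replicate c false ++ v) =
      ∑ i ∈ range j, F (List.replicate (i + 1) true)
        (List.replicate (c + (j - 1 - i)) false ++ v) := by
  induction j generalizing c with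
  | zero => simp [sumA]
  | succ j ih =>
    have e : false :: (List.replicate c false ++ v) = List.replicate (c + 1) false ++ v := by
      simp [List.replicate_succ]
    rw [List.replicate_succ, sumA, e, ih, Finset.sum_range_succ, add_comm]
    congr 1
    · refine Finset.sum_congr rfl fun i hi => ?_
      have := Finset.mem_range.1 hi
      rw [show c + 1 + (j - 1 - i) = c + (j + 1 - 1 - i) by omega]
    · rw [show c + (j + 1 - 1 - j) = c by omega, List.replicate_succ]

theorem sumC_rep (F : List Bool → List Bool → R) (r c : ℕ) (w : List Bool) :
    sumC F (List.replicate c true ++ w) (List.replicate r false) =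
      ∑ i ∈ range r, F (List.replicate (c + (i + 1)) true ++ w)
        (List.replicate (r - (i + 1)) false) := by
  induction r generalizing c with
  | zero => simp [sumC]
  | succ r ih =>
    have e : true :: (List.replicate c true ++ w) = List.replicate (c + 1) true ++ w := by
      simp [List.replicate_succ]
    rw [List.replicate_succ, sumC, e, ih, Finset.sum_range_succ', add_comm]
    congr 1
    refine Finset.sum_congr rfl fun i _ => ?_
    rw [show c + 1 + (i + 1) = c + (i + 1 + 1) by omega,
      show r - (i + 1) = r + 1 - (i + 1 + 1) by omega]

theorem G_rep (x y : R) (s j r : ℕ) :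
    G x y s (List.replicate j true) (List.replicate r false) = Phi x y s j r := by
  induction s generalizing j r with
  | zero =>
    simp [G, Phi, List.count_replicate]
  | succ s ih =>
    simp only [G, Phi, M]
    have h1 := sumA_rep (G x y s) j 0 (true :: List.replicate r false)
    simp only [List.replicate_zero, List.nil_append] at h1
    have h2 := sumC_rep (G x y s) r 0 (false :: List.replicate j true)
    simp only [List.replicate_zero, List.nil_append] at h2
    rw [h1, h2]
    have e1 : ∀ c m : ℕ, G x y s (List.replicate c true ++ false :: List.replicate j true)
        (List.replicate m false) = Phi x y s (j + c) m + (x - 1) * Phi x y s c m := by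
      intro c m
      rw [R1, ← List.replicate_add, ih, ih, add_comm c j]
      simp [List.count_replicate]
    have e2 : ∀ i c : ℕ, G x y s (List.replicate i true)
        (List.replicate c false ++ true :: List.replicate r false) =
        Phi x y s i (r + c + 1) + (y - 1) * Phi x y s i c := by
      intro i c
      rw [R2, ← List.replicate_succ, ← List.replicate_add, ih, ih,
        show c + (r + 1) = r + c + 1 by omega]
      simp [List.count_replicate]
    have e0 := e1 0 r
    simp only [List.replicate_zero, List.nil_append, add_zero] at e0
    rw [e0]
    simp only [zero_add, e1, e2]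
    rw [Finset.sum_range_succ' (fun c => Phi x y s (j + c) (r - c)),
      Finset.sum_range_succ' (fun c => Phi x y s c (r - c)), Finset.sum_add_distrib,
      Finset.sum_add_distrib, ← Finset.mul_sum, ← Finset.mul_sum]
    simp only [add_zero, Nat.sub_zero]
    ring

end Pool.Agent.H48.Fish
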